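import Pool.Agent.Q283.LQ.Stm
import Pool.Agent.Y682.Lcl

/-!
# Project LQ (helper283): torsion classes of the torus `x² + D z² = 1`
-/

set_option autoImplicit false

namespace Pool.Agent.Q198.LQ

open NumberField IsDedekindDomain Filter Topology Finset
open Pool.Agent.Q283.LQ Pool.Agent.Y682

/-! ### The torus over a field -/

section T

variable {K M : Type} [Field K] [Field M] [Algebra K M]

/-- the point `(x, z)` of the torus as an element of `M` -/
def pt (ρ : M) (x z : K) : M := algebraMap K M x + algebraMap K M z * ρ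

theorem pt_mul {D : K} {ρ : M} (hρ : ρ ^ 2 = -algebraMap K M D) (x z x' z' : K) :
    pt ρ x z * pt ρ x' z' = pt ρ (x * x' - D * z * z') (x * z' + x' * z) := by
  unfold pt
  rw [map_sub, map_mul, map_mul, map_mul, map_add, map_mul, map_mul]
  linear_combination (algebraMap K M z * algebraMap K M z') * hρ

theorem norm_mul {D x z x' z' : K} (h : x ^ 2 + D * z ^ 2 = 1) (h' : x' ^ 2 + D * z' ^ 2 = 1) :
    (x * x' - D * z * z') ^ 2 + D * (x * z' + x' * z) ^ 2 = 1 := by
  linear_combination (x' ^ 2 + D * z' ^ 2) * h + h'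

/-- the torus as a subgroup of the units of `M` -/
def Tor (D : K) (ρ : M) (hρ : ρ ^ 2 = -algebraMap K M D) : Subgroup Mˣ where
  carrier := {u | ∃ x z : K, x ^ 2 + D * z ^ 2 = 1 ∧ (u : M) = pt ρ x z}
  mul_mem' := by
    rintro u u' ⟨x, z, h, hu⟩ ⟨x', z', h', hu'⟩
    exact ⟨_, _, norm_mul h h', by rw [Units.val_mul, hu, hu', pt_mul hρ]⟩
  one_mem' := ⟨1, 0, by ring, by simp [pt]⟩
  inv_mem' := by
    rintro u ⟨x, z, h, hu⟩
    refine ⟨x, -z, by linear_combination h, ?_⟩
    have h1 : (u : M) * pt ρ x (-z) = 1 := by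
      rw [hu, pt_mul hρ]
      have e1 : x * x - D * z * -z = 1 := by linear_combination h
      have e2 : x * -z + x * z = 0 := by ring
      rw [e1, e2]
      simp [pt]
    have h2 : ((u⁻¹ : Mˣ) : M) = ((u⁻¹ : Mˣ) : M) * ((u : M) * pt ρ x (-z)) := by rw [h1, mul_one]
    rw [← mul_assoc, Units.inv_mul, one_mul] at h2
    exact h2

theorem pt_inj {D : K} {ρ : M} (h2 : (2 : K) ≠ 0) (hρ : ρ ^ 2 = -algebraMap K M D) {x z x' z' : K}
    (h : x ^ 2 + D * z ^ 2 = 1) (h' : x' ^ 2 + D * z' ^ 2 = 1) (e : pt ρ x z = pt ρ x' z') : x = x' := by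
  have h1 : pt ρ x z * pt ρ x (-z) = 1 := by
    rw [pt_mul hρ]
    have e1 : x * x - D * z * -z = 1 := by linear_combination h
    have e2 : x * -z + x * z = 0 := by ring
    rw [e1, e2]
    simp [pt]
  have h1' : pt ρ x z * pt ρ x' (-z') = 1 := by
    rw [e, pt_mul hρ]
    have e1 : x' * x' - D * z' * -z' = 1 := by linear_combination h'
    have e2 : x' * -z' + x' * z' = 0 := by ring
    rw [e1, e2]
    simp [pt]
  have h3 : pt ρ x (-z) = pt ρ x' (-z') := by
    have h0 : pt ρ x z ≠ 0 := left_ne_zero_of_mul_eq_one h1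
    exact mul_left_cancel₀ h0 (h1.trans h1'.symm)
  have h4 : algebraMap K M (2 * x) = algebraMap K M (2 * x') := by
    unfold pt at e h3
    rw [map_neg, map_neg] at h3
    rw [map_mul, map_mul, map_ofNat]
    linear_combination e + h3
  exact mul_left_cancel₀ h2 ((algebraMap K M).injective h4)

/-- powers of the point -/
theorem pt_pow {D : K} {ρ : M} (hρ : ρ ^ 2 = -algebraMap K M D) (c : ℕ) : ∀ x z : K, x ^ 2 + D * z ^ 2 = 1 →
    ∃ y : K, ((fun t : K => 2 * t ^ 2 - 1)^[c] x) ^ 2 + D * y ^ 2 = 1 ∧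
      pt ρ x z ^ 2 ^ c = pt ρ ((fun t : K => 2 * t ^ 2 - 1)^[c] x) y := by
  induction c with
  | zero =>
    intro x z h
    exact ⟨z, h, by simp⟩
  | succ c ih =>
    intro x z h
    have e : x * x - D * z * z = 2 * x ^ 2 - 1 := by linear_combination -h
    have h1 : (2 * x ^ 2 - 1) ^ 2 + D * (x * z + x * z) ^ 2 = 1 := by
      rw [← e]
      exact norm_mul h h
    obtain ⟨y, hy1, hy2⟩ := ih (2 * x ^ 2 - 1) (x * z + x * z) h1
    refine ⟨y, ?_, ?_⟩
    · rw [Function.iterate_succ_apply]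
      exact hy1
    · rw [Function.iterate_succ_apply, pow_succ', pow_mul, ← hy2, sq, pt_mul hρ, e]

theorem pt_tor {D : K} {ρ : M} (hD : D ≠ 0) (hρ : ρ ^ 2 = -algebraMap K M D) {x z : K} {c : ℕ}
    (h : x ^ 2 + D * z ^ 2 = 1) (hc : (fun t : K => 2 * t ^ 2 - 1)^[c] x = 1) : pt ρ x z ^ 2 ^ c = 1 := by
  obtain ⟨y, hy1, hy2⟩ := pt_pow hρ c x z h
  rw [hc] at hy1 hy2
  have h1 : D * y ^ 2 = 0 := by linear_combination hy1
  have h3 : y = 0 := by
    rcases mul_eq_zero.1 h1 with h4 | h4
    · exact absurd h4 hD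
    · exact pow_eq_zero_iff (two_ne_zero) |>.1 h4
  rw [hy2, h3]
  simp [pt]

/-- two of three torsion points differ by a square -/
theorem two_classes_aux {D : K} {ρ : M} (hρ : ρ ^ 2 = -algebraMap K M D) (hD : D ≠ 0) (h2 : (2 : K) ≠ 0) (x z : Fin 3 → K) (c : Fin 3 → ℕ)
    (h : ∀ i, x i ^ 2 + D * z i ^ 2 = 1) (hc : ∀ i, (fun t : K => 2 * t ^ 2 - 1)^[c i] (x i) = 1) :
    ∃ i j, i ≠ j ∧ ∃ s r : K, s ^ 2 + D * r ^ 2 = 1 ∧
      x i = x j * (2 * s ^ 2 - 1) - D * z j * (2 * s * r) := by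
  classical
  set C : ℕ := ∑ i, c i with hC
  have hu : ∀ i, ∃ u : Mˣ, (u : M) = pt ρ (x i) (z i) ∧ u ∈ Tor D ρ hρ ∧ u ^ 2 ^ C = 1 := by
    intro i
    have h1 : pt ρ (x i) (z i) * pt ρ (x i) (-(z i)) = 1 := by
      rw [pt_mul hρ]
      have e1 : x i * x i - D * z i * -(z i) = 1 := by linear_combination h i
      have e2 : x i * -(z i) + x i * z i = 0 := by ring
      rw [e1, e2]
      simp [pt]
    refine ⟨Units.mkOfMulEqOne _ _ h1, rfl, ⟨x i, z i, h i, rfl⟩, ?_⟩
    ext
    rw [Units.val_pow_eq_pow_val]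
    show pt ρ (x i) (z i) ^ 2 ^ C = 1
    have hle : c i ≤ C := Finset.single_le_sum (f := c) (fun _ _ => Nat.zero_le _) (Finset.mem_univ i)
    obtain ⟨k, hk⟩ := Nat.exists_eq_add_of_le hle
    rw [hk, pow_add, pow_mul, pt_tor hD hρ (h i) (hc i), one_pow]
  choose u hu1 hu2 hu3 using hu
  let H : Subgroup Mˣ := Tor D ρ hρ ⊓ rootsOfUnity (2 ^ C) M
  have hfin : Finite H := by
    have : Finite (rootsOfUnity (2 ^ C) M) := inferInstance
    exact Finite.of_injective (Subgroup.inclusion (inf_le_right : H ≤ rootsOfUnity (2 ^ C) M))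
      (Subgroup.inclusion_injective _)
  have hcyc : IsCyclic H := inferInstance
  obtain ⟨g, hg⟩ := hcyc.exists_generator
  have hmem : ∀ i, u i ∈ H := fun i => ⟨hu2 i, (mem_rootsOfUnity _ _).2 (hu3 i)⟩
  have hn : ∀ i, ∃ n : ℤ, (g : Mˣ) ^ n = u i := by
    intro i
    obtain ⟨n, hn⟩ := Subgroup.mem_zpowers_iff.1 (hg ⟨u i, hmem i⟩)
    refine ⟨n, ?_⟩
    have := congrArg (fun y : H => (y : Mˣ)) hn
    simpa using this
  choose n hn using hn
  obtain ⟨i, j, hij, hpar⟩ : ∃ i j, i ≠ j ∧ n i % 2 = n j % 2 := by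
    have hcard : Fintype.card Bool < Fintype.card (Fin 3) := by decide
    obtain ⟨i, j, hij, he⟩ := Fintype.exists_ne_map_eq_of_card_lt (fun i : Fin 3 => decide (n i % 2 = 0)) hcard
    refine ⟨i, j, hij, ?_⟩
    have he' : decide (n i % 2 = 0) = decide (n j % 2 = 0) := he
    rw [decide_eq_decide] at he'
    omega
  refine ⟨i, j, hij, ?_⟩
  obtain ⟨l, hl⟩ : ∃ l, n i = n j + 2 * l := ⟨(n i - n j) / 2, by omega⟩
  have hσ : (g : Mˣ) ^ l ∈ Tor D ρ hρ := Subgroup.zpow_mem _ g.2.1 _
  obtain ⟨s, r, hsr, hσ2⟩ := hσ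
  refine ⟨s, r, hsr, ?_⟩
  have e1 : u i = u j * ((g : Mˣ) ^ l) ^ 2 := by
    rw [← hn i, ← hn j, hl, zpow_add, mul_comm 2 l, zpow_mul]
    norm_cast
  have e2 : pt ρ (x i) (z i) = pt ρ (x j) (z j) * (pt ρ s r * pt ρ s r) := by
    have := congrArg (fun y : Mˣ => (y : M)) e1
    simp only [Units.val_mul, Units.val_pow_eq_pow_val, hu1, hσ2] at this
    rw [this, sq]
  rw [pt_mul hρ, pt_mul hρ] at e2
  have h5 := pt_inj h2 hρ (h i) (norm_mul (h j) (norm_mul hsr hsr)) e2
  rw [h5]
  linear_combination (-(x j)) * hsr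

/-- two of three torsion points differ by a square -/
theorem two_classes {D : K} (hD : D ≠ 0) (h2 : (2 : K) ≠ 0) (x z : Fin 3 → K) (c : Fin 3 → ℕ)
    (h : ∀ i, x i ^ 2 + D * z i ^ 2 = 1) (hc : ∀ i, (fun t : K => 2 * t ^ 2 - 1)^[c i] (x i) = 1) :
    ∃ i j, i ≠ j ∧ ∃ s r : K, s ^ 2 + D * r ^ 2 = 1 ∧
      x i = x j * (2 * s ^ 2 - 1) - D * z j * (2 * s * r) := by
  obtain ⟨ρ, hρ⟩ := IsAlgClosed.exists_pow_nat_eq (k := AlgebraicClosure K)
    (-algebraMap K (AlgebraicClosure K) D) (n := 2) two_pos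
  exact two_classes_aux hρ hD h2 x z c h hc

/-- the class of a point of the torus -/
def Cl (D x a : K) : Prop := (x ≠ -1 ∧ IsSquare (a * (2 + 2 * x))) ∨ (x = -1 ∧ IsSquare (a * D))

theorem sq_cancel {a c : K} (hc : c ≠ 0) (h : IsSquare (a * c ^ 2)) : IsSquare a := by
  obtain ⟨y, hy⟩ := h
  refine ⟨y / c, ?_⟩
  field_simp
  linear_combination hy

/-- the classes of points which differ by a square agree -/
theorem cl_sq {D : K} (hD : D ≠ 0) (h2 : (2 : K) ≠ 0) {x z x' z' s r a a' : K} (ha : a ≠ 0) (ha' : a' ≠ 0)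
    (h : x ^ 2 + D * z ^ 2 = 1) (h' : x' ^ 2 + D * z' ^ 2 = 1)
    (hs : s ^ 2 + D * r ^ 2 = 1) (e : x = x' * (2 * s ^ 2 - 1) - D * z' * (2 * s * r))
    (hcl : Cl D x a) (hcl' : Cl D x' a') : IsSquare (a * a') := by
  -- the class of the square of `(s, r)`
  have h4 : (4 : K) ≠ 0 := by
    have : (4 : K) = 2 * 2 := by norm_num
    rw [this]
    exact mul_ne_zero h2 h2
  rcases hcl with ⟨hx, y, hy⟩ | ⟨hx, y, hy⟩ <;> rcases hcl' with ⟨hx', y', hy'⟩ | ⟨hx', y', hy'⟩
  · -- both different from `-1`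
    have hx0 : 2 + 2 * x ≠ 0 := by
      intro h0
      apply hx
      have : 2 * (x + 1) = 0 := by linear_combination h0
      have := (mul_eq_zero.1 this).resolve_left h2
      linear_combination this
    have hx0' : 2 + 2 * x' ≠ 0 := by
      intro h0
      apply hx'
      have : 2 * (x' + 1) = 0 := by linear_combination h0
      have := (mul_eq_zero.1 this).resolve_left h2
      linear_combination this
    have key : (2 + 2 * x) * (2 + 2 * x') * (4 * s ^ 2) = (2 + 2 * x + 2 * x' + 2 * (2 * s ^ 2 - 1)) ^ 2 := by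
      rw [e]
      linear_combination (-16 * s ^ 2 * D * r ^ 2) * h' + (16 * s ^ 2 * x' ^ 2 - 16 * s ^ 2) * hs
    by_cases hs0 : s = 0
    · -- `(s, r)^2 = -1`
      have hx2 : x = -x' := by
        rw [e, hs0]
        ring
      have hr : D * r ^ 2 = 1 := by
        rw [hs0] at hs
        linear_combination hs
      have hr0 : r ≠ 0 := by
        rintro rfl
        simp at hr
      apply sq_cancel (c := (2 + 2 * x) * (2 + 2 * x')) (mul_ne_zero hx0 hx0')
      refine ⟨y * y' * (2 * z' / r), ?_⟩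
      have hz : (2 + 2 * x) * (2 + 2 * x') = (2 * z' / r) ^ 2 := by
        rw [hx2]
        field_simp
        linear_combination (-r ^ 2) * h' + (z' ^ 2) * hr
      calc a * a' * ((2 + 2 * x) * (2 + 2 * x')) ^ 2 =
          (a * (2 + 2 * x)) * (a' * (2 + 2 * x')) * ((2 + 2 * x) * (2 + 2 * x')) := by ring
        _ = y * y' * (2 * z' / r) * (y * y' * (2 * z' / r)) := by
          rw [hy, hy', hz]
          ring
    · apply sq_cancel (c := (2 + 2 * x) * (2 + 2 * x') * (2 * s))
        (mul_ne_zero (mul_ne_zero hx0 hx0') (mul_ne_zero h2 hs0))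
      refine ⟨y * y' * (2 + 2 * x + 2 * x' + 2 * (2 * s ^ 2 - 1)), ?_⟩
      calc a * a' * ((2 + 2 * x) * (2 + 2 * x') * (2 * s)) ^ 2 =
          (a * (2 + 2 * x)) * (a' * (2 + 2 * x')) * ((2 + 2 * x) * (2 + 2 * x') * (4 * s ^ 2)) := by ring
        _ = y * y' * (2 + 2 * x + 2 * x' + 2 * (2 * s ^ 2 - 1)) *
            (y * y' * (2 + 2 * x + 2 * x' + 2 * (2 * s ^ 2 - 1))) := by
          rw [hy, hy', key]
          ring
  · -- `x' = -1`
    have hz' : z' = 0 := by
      have h5 : D * z' ^ 2 = 0 := by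
        rw [hx'] at h'
        linear_combination h'
      rcases mul_eq_zero.1 h5 with h6 | h6
      · exact absurd h6 hD
      · exact (pow_eq_zero_iff two_ne_zero).1 h6
    have hxe : x = -(2 * s ^ 2 - 1) := by
      rw [e, hx', hz']
      ring
    have hx0 : 2 + 2 * x ≠ 0 := by
      intro h0
      apply hx
      have : 2 * (x + 1) = 0 := by linear_combination h0
      have := (mul_eq_zero.1 this).resolve_left h2
      linear_combination this
    have hk : 2 + 2 * x = D * (2 * r) ^ 2 := by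
      rw [hxe]
      linear_combination (-4) * hs
    have hr0 : r ≠ 0 := by
      rintro rfl
      apply hx0
      rw [hk]
      ring
    apply sq_cancel (c := D * (2 * r)) (mul_ne_zero hD (mul_ne_zero h2 hr0))
    refine ⟨y * y', ?_⟩
    calc a * a' * (D * (2 * r)) ^ 2 = (a * (D * (2 * r) ^ 2)) * (a' * D) := by ring
      _ = y * y' * (y * y') := by
        rw [← hk, hy, hy']
        ring
  · -- `x = -1`
    have hx0' : 2 + 2 * x' ≠ 0 := by
      intro h0
      apply hx'
      have : 2 * (x' + 1) = 0 := by linear_combination h0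
      have := (mul_eq_zero.1 this).resolve_left h2
      linear_combination this
    -- `(x', z') = -(s, r)^(-2)`: `2 + 2 x' = 4 (1 - s²) = D (2 r)²`
    have hz0 : z = 0 := by
      have h5 : D * z ^ 2 = 0 := by
        rw [hx] at h
        linear_combination h
      rcases mul_eq_zero.1 h5 with h6 | h6
      · exact absurd h6 hD
      · exact (pow_eq_zero_iff two_ne_zero).1 h6
    have hxe : x' = -(2 * s ^ 2 - 1) := by
      -- the product of `(x', z')` and `(S, R)`, `S = 2s²-1`, `R = 2sr`, has first coordinate `-1`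
      have hSR : (2 * s ^ 2 - 1) ^ 2 + D * (2 * s * r) ^ 2 = 1 := by
        linear_combination (4 * s ^ 2) * hs
      have h1 : x' * (2 * s ^ 2 - 1) - D * z' * (2 * s * r) = -1 := by rw [← e, hx]
      have h2' : (x' * (2 * s ^ 2 - 1) - D * z' * (2 * s * r)) ^ 2 +
          D * (x' * (2 * s * r) + (2 * s ^ 2 - 1) * z') ^ 2 = 1 := norm_mul h' hSR
      rw [h1] at h2'
      have h3 : D * (x' * (2 * s * r) + (2 * s ^ 2 - 1) * z') ^ 2 = 0 := by linear_combination h2'
      have h6 : x' * (2 * s * r) + (2 * s ^ 2 - 1) * z' = 0 := by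
        rcases mul_eq_zero.1 h3 with h7 | h7
        · exact absurd h7 hD
        · exact (pow_eq_zero_iff two_ne_zero).1 h7
      -- x' = x' (S² + D R²) = S (x' S - D z' R) + D R (x' R + S z')
      linear_combination (-x') * hSR + (2 * s ^ 2 - 1) * h1 + (D * (2 * s * r)) * h6
    have hk : 2 + 2 * x' = D * (2 * r) ^ 2 := by
      rw [hxe]
      linear_combination (-4) * hs
    have hr0 : r ≠ 0 := by
      rintro rfl
      apply hx0'
      rw [hk]
      ring
    apply sq_cancel (c := D * (2 * r)) (mul_ne_zero hD (mul_ne_zero h2 hr0))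
    refine ⟨y * y', ?_⟩
    calc a * a' * (D * (2 * r)) ^ 2 = (a * D) * (a' * (D * (2 * r) ^ 2)) := by ring
      _ = y * y' * (y * y') := by
        rw [← hk, hy, hy']
        ring
  · apply sq_cancel (c := D) hD
    refine ⟨y * y', ?_⟩
    calc a * a' * D ^ 2 = (a * D) * (a' * D) := by ring
      _ = y * y' * (y * y') := by
        rw [hy, hy']
        ring

end T

/-! ### Squares in the completion -/

section C

variable {F : Type} [Field F] [NumberField F]

theorem coe_eq (v : HeightOneSpectrum (𝓞 F)) (a : F) :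
    (a : v.adicCompletion F) = algebraMap F (v.adicCompletion F) a := by
  rw [HeightOneSpectrum.algebraMap_adicCompletion]
  rfl

theorem exists_exp {γ : WithZero (Multiplicative ℤ)} (h : γ ≠ 0) : ∃ k : ℤ, γ = WithZero.exp k :=
  ⟨WithZero.log γ, (WithZero.exp_log h).symm⟩

theorem lsq_iff (v : HeightOneSpectrum (𝓞 F)) (b : F) :
    Lsq v b ↔ b ≠ 0 ∧ IsSquare (algebraMap F (v.adicCompletion F) b) := by
  constructor
  · intro h
    have h40 : vv v (4 : v.adicCompletion F) ≠ 0 := by
      have : (4 : v.adicCompletion F) ≠ 0 := by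
        have e : (4 : v.adicCompletion F) = algebraMap F _ 4 := by rw [map_ofNat]
        rw [e]
        exact (map_ne_zero _).2 (by norm_num)
      exact (Valuation.ne_zero_iff _).2 this
    obtain ⟨k, hk⟩ := exists_exp h40
    have h41 : vv v (4 : v.adicCompletion F) ≤ 1 := by
      have e : (4 : v.adicCompletion F) = algebraMap F _ (algebraMap (𝓞 F) F 4) := by
        rw [map_ofNat, map_ofNat]
      rw [e, vv_coe]
      exact v.valuation_le_one _
    obtain ⟨x, hx⟩ := h k.natAbs
    have hle : WithZero.exp (-((k.natAbs : ℕ) : ℤ)) ≤ vv v (4 : v.adicCompletion F) := by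
      rw [hk]
      exact WithZero.exp_le_exp.2 (by omega)
    have h1 : v.valuation F (b * x ^ 2 - 1) < 1 := hx.trans_le (hle.trans h41)
    have hbx : b * x ^ 2 ≠ 0 := by
      intro h0
      rw [h0, zero_sub, Valuation.map_neg, map_one] at h1
      exact lt_irrefl _ h1
    have hb : b ≠ 0 := left_ne_zero_of_mul hbx
    have hx0 : x ≠ 0 := by
      rintro rfl
      exact hbx (by ring)
    refine ⟨hb, ?_⟩
    obtain ⟨y, hy⟩ := exists_sqrt v (algebraMap F (v.adicCompletion F) (b * x ^ 2 - 1)) (by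
      rw [vv_coe]
      exact hx.trans_le hle)
    have hx1 : algebraMap F (v.adicCompletion F) x ≠ 0 := (map_ne_zero _).2 hx0
    apply sq_cancel hx1
    refine ⟨y, ?_⟩
    rw [← sq, hy, map_sub, map_mul, map_pow, map_one]
    ring
  · rintro ⟨hb, s, hs⟩ n
    have hb1 : algebraMap F (v.adicCompletion F) b ≠ 0 := (map_ne_zero _).2 hb
    have hs0 : s ≠ 0 := by
      rintro rfl
      apply hb1
      rw [hs]
      ring
    have hvs : vv v s ≠ 0 := (Valuation.ne_zero_iff _).2 hs0
    obtain ⟨x, hx⟩ := exists_approx v s⁻¹ (WithZero.exp (-(n : ℤ)) / vv v s)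
      (div_ne_zero WithZero.exp_ne_zero hvs)
    refine ⟨x, ?_⟩
    rw [← vv_coe]
    set X := algebraMap F (v.adicCompletion F) x with hX
    have e : algebraMap F (v.adicCompletion F) (b * x ^ 2 - 1) = (s * (X - s⁻¹)) * (s * (X - s⁻¹) + 2) := by
      rw [map_sub, map_mul, map_pow, map_one, hs, ← hX]
      field_simp
      ring
    have h1 : vv v (s * (X - s⁻¹)) < WithZero.exp (-(n : ℤ)) := by
      rw [map_mul, mul_comm]
      exact (lt_div_iff₀ (zero_lt_iff.2 hvs)).1 hx
    have h2 : vv v (s * (X - s⁻¹)) ≤ 1 := h1.le.trans (by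
      rw [← WithZero.exp_zero]
      exact WithZero.exp_le_exp.2 (by omega))
    have h3 : vv v (2 : v.adicCompletion F) ≤ 1 := by
      have e : (2 : v.adicCompletion F) = algebraMap F _ (algebraMap (𝓞 F) F 2) := by
        rw [map_ofNat, map_ofNat]
      rw [e, vv_coe]
      exact v.valuation_le_one _
    rw [e, map_mul]
    calc vv v (s * (X - s⁻¹)) * vv v (s * (X - s⁻¹) + 2) ≤ vv v (s * (X - s⁻¹)) * 1 :=
          mul_le_mul_right ((Valuation.map_add _ _ _).trans (max_le h2 h3)) _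
      _ = vv v (s * (X - s⁻¹)) := mul_one _
      _ < _ := h1

theorem at_iff (v : HeightOneSpectrum (𝓞 F)) (D a : F) : AT v D a ↔
    a ≠ 0 ∧ ∃ x z : v.adicCompletion F, x ^ 2 + algebraMap F _ D * z ^ 2 = 1 ∧
    (∃ c : ℕ, (fun t : v.adicCompletion F => 2 * t ^ 2 - 1)^[c] x = 1) ∧
    Cl (algebraMap F _ D) x (algebraMap F _ a) := by
  unfold AT Cl
  simp only [coe_eq]

end C

theorem atl : S_ATL := by
  intro F _ _
  have two_ne : ∀ v : HeightOneSpectrum (𝓞 F), (2 : v.adicCompletion F) ≠ 0 := by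
    intro v
    have e : (2 : v.adicCompletion F) = algebraMap F _ 2 := by rw [map_ofNat]
    rw [e]
    exact (map_ne_zero _).2 (by norm_num)
  refine ⟨fun v D a _ _ h => h.1, ?_, ?_, ?_, ?_, fun v _ => rfl⟩
  · -- mul
    intro v D a b _ hD h hb
    rw [at_iff] at h ⊢
    obtain ⟨ha, x, z, h1, h2, h3⟩ := h
    obtain ⟨hb0, s, hs⟩ := (lsq_iff v b).1 hb
    refine ⟨mul_ne_zero ha hb0, x, z, h1, h2, ?_⟩
    rcases h3 with ⟨h4, y, hy⟩ | ⟨h4, y, hy⟩
    · refine Or.inl ⟨h4, y * s, ?_⟩
      rw [map_mul, hs]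
      linear_combination (s * s) * hy
    · refine Or.inr ⟨h4, y * s, ?_⟩
      rw [map_mul, hs]
      linear_combination (s * s) * hy
  · -- inv
    intro v D n a _ hD hn h
    rw [at_iff] at h ⊢
    obtain ⟨ha, x, z, h1, h2, h3⟩ := h
    obtain ⟨hn0, s, hs⟩ := (lsq_iff v n).1 hn
    have hs0 : s ≠ 0 := by
      rintro rfl
      apply (map_ne_zero (algebraMap F (v.adicCompletion F))).2 hn0
      rw [hs]
      ring
    refine ⟨ha, x, z / s, ?_, h2, ?_⟩
    · rw [map_mul, hs]
      field_simp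
      linear_combination h1
    · rcases h3 with ⟨h4, hy⟩ | ⟨h4, y, hy⟩
      · exact Or.inl ⟨h4, hy⟩
      · refine Or.inr ⟨h4, y * s, ?_⟩
        rw [map_mul, hs]
        linear_combination (s * s) * hy
  · -- clo
    intro v D a _ hD h
    rw [at_iff] at h ⊢
    obtain ⟨ha, x, z, h1, ⟨c, hc⟩, h3⟩ := h
    have hD1 : algebraMap F (v.adicCompletion F) D ≠ 0 := (map_ne_zero _).2 hD
    refine ⟨mul_ne_zero ha hD, -x, -z, by linear_combination h1, ⟨c + 1, ?_⟩, ?_⟩
    · have e1 : (fun t : v.adicCompletion F => 2 * t ^ 2 - 1)^[c + 1] (-x) =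
          (fun t : v.adicCompletion F => 2 * t ^ 2 - 1)^[c + 1] x := by
        rw [Function.iterate_succ_apply, Function.iterate_succ_apply]
        congr 1
        ring
      rw [e1, Function.iterate_succ_apply', hc]
      norm_num
    · rcases h3 with ⟨h4, y, hy⟩ | ⟨h4, y, hy⟩
      · by_cases hx1 : x = 1
        · refine Or.inr ⟨by rw [hx1], ?_⟩
          rw [hx1] at hy
          apply sq_cancel (two_ne v)
          refine ⟨y * algebraMap F _ D, ?_⟩
          rw [map_mul]
          linear_combination (algebraMap F (v.adicCompletion F) D) ^ 2 * hy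
        · refine Or.inl ⟨fun h5 => hx1 (by linear_combination -h5), ?_⟩
          have hx0 : 2 + 2 * x ≠ 0 := by
            intro h0
            apply h4
            have : 2 * (x + 1) = 0 := by linear_combination h0
            have := (mul_eq_zero.1 this).resolve_left (two_ne v)
            linear_combination this
          apply sq_cancel hx0
          refine ⟨y * (2 * algebraMap F _ D * z), ?_⟩
          rw [map_mul]
          linear_combination (4 * (algebraMap F (v.adicCompletion F) D) ^ 2 * z ^ 2) * hy +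
            (-4 * algebraMap F (v.adicCompletion F) a * algebraMap F (v.adicCompletion F) D * (2 + 2 * x)) * h1
      · refine Or.inl ⟨?_, y * 2, ?_⟩
        · rw [h4]
          intro h5
          apply two_ne v
          linear_combination h5
        · rw [map_mul, h4]
          linear_combination 4 * hy
  · -- num
    intro v D _ hD B hB hpair
    by_contra hcard
    push Not at hcard
    have h3 : 3 ≤ B.card := by
      simp only [zero_add, pow_one] at hcard
      omega
    obtain ⟨B', hB', hB3⟩ := Finset.exists_subset_card_eq h3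
    let e := (B'.equivFinOfCardEq hB3).symm
    have hmem : ∀ i, (e i : F) ∈ B := fun i => hB' (e i).2
    have hA : ∀ i, AT v D (e i : F) := fun i => hB _ (hmem i)
    simp only [at_iff] at hA
    choose ha x z h1 hc hcl using hA
    choose c hc using hc
    have hD1 : algebraMap F (v.adicCompletion F) D ≠ 0 := (map_ne_zero _).2 hD
    obtain ⟨i, j, hij, s, r, hsr, hx⟩ := two_classes hD1 (two_ne v) x z c h1 hc
    have hne : (e i : F) ≠ (e j : F) := fun h => hij (e.injective (Subtype.ext h))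
    apply hpair _ (hmem i) _ (hmem j) hne
    rw [lsq_iff]
    refine ⟨mul_ne_zero (ha i) (ha j), ?_⟩
    rw [map_mul]
    exact cl_sq hD1 (two_ne v) ((map_ne_zero _).2 (ha i)) ((map_ne_zero _).2 (ha j)) (h1 i) (h1 j) hsr hx
      (hcl i) (hcl j)

end Pool.Agent.Q198.LQ
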