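import Pool.Agent.Q283.LQ.Stm

/-!
# Project LQ (helper283): units of relative norm one which are almost torsion times squares
-/

set_option autoImplicit false

namespace Pool.Agent.Q198.LQ

open NumberField IsDedekindDomain Filter Topology Finset
open Pool.Agent.Q283.LQ

section

variable {K : Type} [Field K] [NumberField K]

/-- the units congruent to `1` -/
def US (J : Ideal (𝓞 K)) : Subgroup (𝓞 K)ˣ where
  carrier := {u | (u : 𝓞 K) - 1 ∈ J}
  mul_mem' := by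
    intro u v hu hv
    show ((u * v : (𝓞 K)ˣ) : 𝓞 K) - 1 ∈ J
    have e : ((u * v : (𝓞 K)ˣ) : 𝓞 K) - 1 = ((u : 𝓞 K) - 1) * v + ((v : 𝓞 K) - 1) := by
      rw [Units.val_mul]
      ring
    rw [e]
    exact J.add_mem (J.mul_mem_right _ hu) hv
  one_mem' := by
    show ((1 : (𝓞 K)ˣ) : 𝓞 K) - 1 ∈ J
    simp
  inv_mem' := by
    intro u hu
    show ((u⁻¹ : (𝓞 K)ˣ) : 𝓞 K) - 1 ∈ J
    have e : ((u⁻¹ : (𝓞 K)ˣ) : 𝓞 K) - 1 = -(((u : 𝓞 K) - 1) * ((u⁻¹ : (𝓞 K)ˣ) : 𝓞 K)) := by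
      have h : (u : 𝓞 K) * ((u⁻¹ : (𝓞 K)ˣ) : 𝓞 K) = 1 := Units.mul_inv u
      linear_combination h
    rw [e]
    exact J.neg_mem (J.mul_mem_right _ hu)

theorem mem_US {J : Ideal (𝓞 K)} {u : (𝓞 K)ˣ} : u ∈ US J ↔ (u : 𝓞 K) - 1 ∈ J := Iff.rfl

theorem rel_zero (J : Ideal (𝓞 K)) {n : ℕ} (ε : Fin n → (𝓞 K)ˣ) : Rel K J ε 0 := by
  refine ⟨fun _ _ => 0, fun i => ?_, fun N => ?_⟩
  · simp
  · refine Filter.Eventually.of_forall fun k => ?_
    simp

theorem rel_add {J : Ideal (𝓞 K)} {n : ℕ} {ε : Fin n → (𝓞 K)ˣ} {a b : Fin n → ℤ_[2]} (ha : Rel K J ε a)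
    (hb : Rel K J ε b) : Rel K J ε (a + b) := by
  obtain ⟨m, hm1, hm2⟩ := ha
  obtain ⟨m', hm1', hm2'⟩ := hb
  refine ⟨fun k i => m k i + m' k i, fun i => ?_, fun N => ?_⟩
  · have := (hm1 i).add (hm1' i)
    simpa using this
  · filter_upwards [hm2 N, hm2' N] with k h1 h2
    have h3 : (∏ i, ε i ^ m k i) * (∏ i, ε i ^ m' k i) ∈ US (J ^ N) := (US (J ^ N)).mul_mem h1 h2
    rw [← Finset.prod_mul_distrib] at h3
    have h4 : (∏ i, ε i ^ (m k i + m' k i)) = ∏ i, ε i ^ m k i * ε i ^ m' k i :=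
      Finset.prod_congr rfl fun i _ => zpow_add _ _ _
    rw [h4]
    exact h3

theorem rel_smul {J : Ideal (𝓞 K)} {n : ℕ} {ε : Fin n → (𝓞 K)ˣ} {a : Fin n → ℤ_[2]} (ha : Rel K J ε a)
    (x : ℤ_[2]) : Rel K J ε (x • a) := by
  obtain ⟨m, hm1, hm2⟩ := ha
  obtain ⟨y, hy⟩ : ∃ y : ℕ → ℤ, Tendsto (fun k => ((y k : ℤ) : ℤ_[2])) atTop (𝓝 x) := by
    have hd : DenseRange (Int.cast : ℤ → ℤ_[2]) := PadicInt.denseRange_intCast
    obtain ⟨f, hf, hf2⟩ := mem_closure_iff_seq_limit.1 (hd x)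
    choose y hy using hf
    refine ⟨y, ?_⟩
    have e : (fun k => ((y k : ℤ) : ℤ_[2])) = f := funext hy
    rw [e]
    exact hf2
  refine ⟨fun k i => y k * m k i, fun i => ?_, fun N => ?_⟩
  · have := hy.mul (hm1 i)
    simpa using this
  · filter_upwards [hm2 N] with k h1
    have h3 : (∏ i, ε i ^ m k i) ^ (y k) ∈ US (J ^ N) := (US (J ^ N)).zpow_mem h1 _
    have h4 : (∏ i, ε i ^ (y k * m k i)) = (∏ i, ε i ^ m k i) ^ (y k) := by
      rw [← Finset.prod_zpow]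
      refine Finset.prod_congr rfl fun i _ => ?_
      rw [mul_comm, zpow_mul]
    rw [h4]
    exact h3

/-- the module of the relations -/
def RelM (J : Ideal (𝓞 K)) {n : ℕ} (ε : Fin n → (𝓞 K)ˣ) : Submodule ℤ_[2] (Fin n → ℤ_[2]) where
  carrier := {a | Rel K J ε a}
  add_mem' := fun ha hb => rel_add ha hb
  zero_mem' := rel_zero J ε
  smul_mem' := fun x _ ha => rel_smul ha x

end

theorem prod_zpow_sum {G ι : Type} [CommGroup G] (x : G) (s : Finset ι) (f : ι → ℤ) :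
    ∏ j ∈ s, x ^ f j = x ^ ∑ j ∈ s, f j := by
  classical
  induction s using Finset.induction_on with
  | empty => simp
  | insert a s ha ih => rw [Finset.prod_insert ha, Finset.sum_insert ha, zpow_add, ih]

theorem dvd_int {m : ℕ} {n : ℤ} (h : (2 : ℤ_[2]) ^ m ∣ (n : ℤ_[2])) : (2 : ℤ) ^ m ∣ n := by
  have h1 := (PadicInt.pow_p_dvd_int_iff (p := 2) m n).1 (by exact_mod_cast h)
  exact_mod_cast h1

theorem near_dvd {x y : ℤ_[2]} {m : ℕ} (h : ‖x - y‖ < (2 : ℝ) ^ (-(m : ℤ))) : (2 : ℤ_[2]) ^ (m + 1) ∣ x - y := by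
  have h1 : ‖x - y‖ ≤ (2 : ℝ) ^ (-((m + 1 : ℕ) : ℤ)) := by
    have := (PadicInt.norm_le_pow_iff_norm_lt_pow_add_one (p := 2) (x - y) (-((m + 1 : ℕ) : ℤ))).2
    push_cast at this ⊢
    apply this
    have e : (-((m : ℤ) + 1) + 1) = -(m : ℤ) := by ring
    rw [e]
    exact h
  have h2 := (PadicInt.norm_le_pow_iff_mem_span_pow (p := 2) (x - y) (m + 1)).1 (by exact_mod_cast h1)
  rw [Ideal.mem_span_singleton] at h2
  exact_mod_cast h2

theorem exists_rep (x : ℤ_[2]) : ∃ w : ℤ, (2 : ℤ_[2]) ∣ x - (w : ℤ_[2]) := by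
  obtain ⟨n, -, hn⟩ := PadicInt.exists_mem_range (p := 2) x
  refine ⟨n, ?_⟩
  rw [PadicInt.maximalIdeal_eq_span_p, Ideal.mem_span_singleton] at hn
  exact_mod_cast hn

theorem cr1 (hCR1A : S_CR1A) (hLA1 : S_LA1) : S_CR1 := by
  intro F L _ _ _ _ _ I hI hdeg s t hs hL
  obtain ⟨p, θ, h, hh, hθN, hθind, hgen, a, ha, hRel⟩ := hCR1A F L I hI hdeg s t hs hL
  obtain ⟨b, m, hb1, hb2⟩ := hLA1 t p a ha
  set J := I.map (algebraMap (𝓞 F) (𝓞 L)) with hJ
  -- the norm one subgroup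
  let ν : (𝓞 L)ˣ →* Fˣ :=
    Units.map ((Algebra.norm F : L →* F).comp (algebraMap (𝓞 L) L : 𝓞 L →* L))
  have hν : ∀ u : (𝓞 L)ˣ, Algebra.norm F ((u : 𝓞 L) : L) = 1 ↔ u ∈ ν.ker := by
    intro u
    rw [MonoidHom.mem_ker, Units.ext_iff]
    rfl
  choose W hW using fun (j : Fin t) (i : Fin p) => exists_rep (b j i)
  have hprodmem : ∀ n : Fin p → ℤ, ∏ i, θ i ^ n i ∈ ν.ker := fun n =>
    Subgroup.prod_mem _ fun i _ => Subgroup.zpow_mem _ ((hν _).1 (hθN i)) _
  have hwc : ∀ c : Fin t → ZMod 2, ∏ j, (∏ i, θ i ^ W j i) ^ (c j).val =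
      ∏ i, θ i ^ (∑ j, ((c j).val : ℤ) * W j i) := by
    intro c
    calc ∏ j, (∏ i, θ i ^ W j i) ^ (c j).val = ∏ j, ∏ i, θ i ^ (((c j).val : ℤ) * W j i) := by
          refine Finset.prod_congr rfl fun j _ => ?_
          rw [← Finset.prod_pow]
          refine Finset.prod_congr rfl fun i _ => ?_
          rw [← zpow_natCast, ← zpow_mul, mul_comm]
      _ = ∏ i, ∏ j, θ i ^ (((c j).val : ℤ) * W j i) := Finset.prod_comm
      _ = _ := by
          refine Finset.prod_congr rfl fun i _ => ?_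
          rw [prod_zpow_sum]
  have hdiff : ∀ (c : Fin t → ZMod 2) (i : Fin p), (2 : ℤ_[2]) ∣ (∑ j, ((c j).val : ℤ_[2]) * b j i) -
      ((∑ j, ((c j).val : ℤ) * W j i : ℤ) : ℤ_[2]) := by
    intro c i
    push_cast
    rw [← Finset.sum_sub_distrib]
    refine Finset.dvd_sum fun j _ => ?_
    rw [← mul_sub]
    exact (hW j i).mul_left _
  refine ⟨fun j => ∏ i, θ i ^ W j i, fun j => (hν _).2 (hprodmem _), ?_, ?_⟩
  · -- independence
    intro c hc η hη
    have main : ∀ z : (𝓞 L)ˣ, z ^ 2 = (η ^ 2) ^ 2 → ∏ j, (∏ i, θ i ^ W j i) ^ (c j).val ≠ z := by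
      intro z hz hE
      obtain ⟨n, hn⟩ := hgen η hη
      have h1 : (∏ i, θ i ^ (∑ j, ((c j).val : ℤ) * W j i)) ^ (2 * h) = (∏ i, θ i ^ n i) ^ (4 * h) := by
        rw [← hwc c, hE]
        calc z ^ (2 * h) = (z ^ 2) ^ h := by rw [pow_mul]
          _ = ((η ^ 2) ^ 2) ^ h := by rw [hz]
          _ = (η ^ h) ^ 4 := by
            rw [← pow_mul, ← pow_mul, ← pow_mul]
            congr 1
            ring
          _ = ((∏ i, θ i ^ n i) ^ h) ^ 4 := by rw [hn]
          _ = _ := by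
            rw [← pow_mul]
            congr 1
            ring
      have h2 : ∏ i, θ i ^ ((∑ j, ((c j).val : ℤ) * W j i) * (2 * h) - n i * (4 * h)) = 1 := by
        have e1 : (∏ i, θ i ^ (∑ j, ((c j).val : ℤ) * W j i)) ^ (2 * h) =
            ∏ i, θ i ^ ((∑ j, ((c j).val : ℤ) * W j i) * (2 * h)) := by
          rw [← Finset.prod_pow]
          refine Finset.prod_congr rfl fun i _ => ?_
          rw [← zpow_natCast, ← zpow_mul]
          push_cast
          rfl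
        have e2 : (∏ i, θ i ^ n i) ^ (4 * h) = ∏ i, θ i ^ (n i * (4 * h)) := by
          rw [← Finset.prod_pow]
          refine Finset.prod_congr rfl fun i _ => ?_
          rw [← zpow_natCast, ← zpow_mul]
          push_cast
          rfl
        have e3 : ∏ i, θ i ^ ((∑ j, ((c j).val : ℤ) * W j i) * (2 * h) - n i * (4 * h)) =
            (∏ i, θ i ^ ((∑ j, ((c j).val : ℤ) * W j i) * (2 * h))) / ∏ i, θ i ^ (n i * (4 * h)) := by
          rw [← Finset.prod_div_distrib]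
          refine Finset.prod_congr rfl fun i _ => ?_
          rw [zpow_sub, div_eq_mul_inv]
        rw [e3, ← e1, ← e2, h1, div_self']
      have h3 := hθind _ h2
      obtain ⟨i, hi⟩ := hb2 c hc
      apply hi
      have h4 := congrFun h3 i
      have h5 : (∑ j, ((c j).val : ℤ) * W j i) = 2 * n i := by
        have h6 : (2 * (h : ℤ)) * ((∑ j, ((c j).val : ℤ) * W j i) - 2 * n i) = 0 := by
          simp only [Pi.zero_apply] at h4
          linear_combination h4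
        have h7 : (2 * (h : ℤ)) ≠ 0 := by
          have : (h : ℤ) ≠ 0 := by exact_mod_cast hh.ne'
          positivity
        have h8 := (mul_eq_zero.1 h6).resolve_left h7
        linear_combination h8
      have h9 := hdiff c i
      rw [h5] at h9
      have h10 : (2 : ℤ_[2]) ∣ ((2 * n i : ℤ) : ℤ_[2]) := by
        push_cast
        exact dvd_mul_right _ _
      have h11 := dvd_add h9 h10
      simpa using h11
    exact ⟨main _ rfl, main _ (by rw [neg_sq])⟩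
  · -- almost torsion
    refine ⟨2 ^ m, by positivity, fun c N => ?_⟩
    set bc : Fin p → ℤ_[2] := fun i => ∑ j, ((c j).val : ℤ_[2]) * b j i with hbc
    have hrel : (2 : ℤ_[2]) ^ m • bc ∈ RelM J θ := by
      have e : (2 : ℤ_[2]) ^ m • bc = ∑ j, ((c j).val : ℤ_[2]) • ((2 : ℤ_[2]) ^ m • b j) := by
        funext i
        rw [Finset.sum_apply]
        simp only [Pi.smul_apply, smul_eq_mul, hbc]
        rw [Finset.mul_sum]
        exact Finset.sum_congr rfl fun j _ => by ring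
      rw [e]
      refine Submodule.sum_mem _ fun j _ => Submodule.smul_mem _ _ ?_
      have hspan : Submodule.span ℤ_[2] (Set.range a) ≤ RelM J θ := by
        rw [Submodule.span_le]
        rintro _ ⟨j', rfl⟩
        exact hRel j'
      exact hspan (hb1 j)
    obtain ⟨n, hn1, hn2⟩ := hrel
    have hev : ∀ᶠ k in atTop, ∀ i, ‖((n k i : ℤ) : ℤ_[2]) - ((2 : ℤ_[2]) ^ m • bc) i‖ < (2 : ℝ) ^ (-(m : ℤ)) := by
      rw [Filter.eventually_all]
      intro i
      have := (Metric.tendsto_nhds.1 (hn1 i)) ((2 : ℝ) ^ (-(m : ℤ))) (by positivity)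
      filter_upwards [this] with k hk
      rwa [dist_eq_norm] at hk
    obtain ⟨k, hk1, hk2⟩ := (hev.and (hn2 N)).exists
    have hex : ∀ i, ∃ n' : ℤ, n k i = 2 ^ m * ((∑ j, ((c j).val : ℤ) * W j i) + 2 * n') := by
      intro i
      obtain ⟨y, hy⟩ := near_dvd (hk1 i)
      obtain ⟨z, hz⟩ := hdiff c i
      have hbi : ((2 : ℤ_[2]) ^ m • bc) i = 2 ^ m * ∑ j, ((c j).val : ℤ_[2]) * b j i := by
        simp [hbc]
      rw [hbi] at hy
      have h1 : ((n k i - 2 ^ m * (∑ j, ((c j).val : ℤ) * W j i) : ℤ) : ℤ_[2]) = 2 ^ (m + 1) * (y + z) := by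
        push_cast
        push_cast at hz
        have h2 : (∑ j, ((c j).val : ℤ_[2]) * b j i) = 2 * z + ∑ j, ((c j).val : ℤ_[2]) * (W j i : ℤ_[2]) := by
          linear_combination hz
        rw [h2] at hy
        linear_combination hy
      obtain ⟨n', hn'⟩ := dvd_int (m := m + 1) ⟨_, h1⟩
      refine ⟨n', ?_⟩
      have : n k i = 2 ^ m * (∑ j, ((c j).val : ℤ) * W j i) + 2 ^ (m + 1) * n' := by
        linear_combination hn'
      rw [this]
      ring
    choose n' hn' using hex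
    refine ⟨∏ i, θ i ^ n' i, (hν _).2 (hprodmem _), ?_⟩
    have e : ((∏ j, (∏ i, θ i ^ W j i) ^ (c j).val) * (∏ i, θ i ^ n' i) ^ 2) ^ 2 ^ m = ∏ i, θ i ^ n k i := by
      rw [hwc c, ← Finset.prod_pow, ← Finset.prod_mul_distrib, ← Finset.prod_pow]
      refine Finset.prod_congr rfl fun i _ => ?_
      rw [hn' i, ← zpow_natCast (θ i ^ n' i) 2, ← zpow_mul, ← zpow_add, ← zpow_natCast, ← zpow_mul]
      congr 1
      push_cast
      ring
    rw [e]
    exact hk2

end Pool.Agent.Q198.LQ
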